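import Pool.Agent.SPH.A4.Ok
import Pool.Agent.SPH.Pre
import Pool.Agent.SPH.Fix
import Pool.Agent.SPH.Idx
import Pool.Agent.Helper29.B5.Main

/-!
# Project SPH: the automorphisms of the Artin group of type `A4` which fix `δ`

The Artin group of type `A4` is the braid group on five strands (`bd`), so every automorphism which
preserves the length is inner (`Pool/Agent/Helper29/B5`), and an element which commutes with `δ` is a
power of `δ` (`cent_one`).
-/

set_option maxRecDepth 10000

namespace Pool.Agent.SPH.A4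

open Pool.Agent.Helper7.AG Pool.Agent.Helper38.BN

/-- the generators -/
noncomputable def sg (i : ℕ) : Artin (CoxeterMatrix.A 4) :=
  if h : i < 4 then PresentedGroup.of (⟨i, h⟩ : Fin 4) else 1

lemma sg_of {i : ℕ} (h : i < 4) : sg i = PresentedGroup.of (⟨i, h⟩ : Fin 4) := dif_pos h

lemma A_two {i j : Fin 4} (h : i.1 + 2 ≤ j.1) : (CoxeterMatrix.A 4) i j = 2 := by
  show (if i = j then 1 else (if (j : ℕ) + 1 = i ∨ (i : ℕ) + 1 = j then 3 else 2)) = 2
  rw [if_neg (fun e => by rw [e] at h; omega), if_neg (by omega)]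

lemma A_three {i j : Fin 4} (h : i.1 + 1 = j.1) : (CoxeterMatrix.A 4) i j = 3 := by
  show (if i = j then 1 else (if (j : ℕ) + 1 = i ∨ (i : ℕ) + 1 = j then 3 else 2)) = 3
  rw [if_neg (fun e => by rw [e] at h; omega), if_pos (Or.inr h)]

theorem sg_rel : RelBr 4 sg where
  comm i j h1 h2 := by
    rw [sg_of (show i < 4 by omega), sg_of h2]
    have h := artin_rel (CoxeterMatrix.A 4) (⟨i, by omega⟩ : Fin 4) ⟨j, h2⟩
    rwa [A_two (by simpa using h1), alt_two, alt_two] at h
  braid i h1 := by
    rw [sg_of (show i < 4 by omega), sg_of h1]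
    have h := artin_rel (CoxeterMatrix.A 4) (⟨i, by omega⟩ : Fin 4) ⟨i + 1, h1⟩
    rwa [A_three rfl, alt_three, alt_three] at h

private lemma lift_aux {K : Type*} [Group K] {a : ℕ → K} (h : RelBr 4 a) :
    ∀ r ∈ rels (CoxeterMatrix.A 4), FreeGroup.lift (fun i : Fin 4 => a i) r = 1 := by
  have key : ∀ i j : Fin 4, i.1 < j.1 → alt (a i) (a j) ((CoxeterMatrix.A 4) i j) =
      alt (a j) (a i) ((CoxeterMatrix.A 4) i j) := by
    intro i j hij
    rcases Nat.lt_or_ge (i.1 + 1) j.1 with h1 | h1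
    · rw [A_two (by omega), alt_two, alt_two, h.comm i j (by omega) j.2]
    · have h2 : i.1 + 1 = j.1 := by omega
      rw [A_three h2, alt_three, alt_three, ← h2]
      exact h.braid i (by rw [h2]; exact j.2)
  apply artin_lift_aux
  intro i j
  rcases lt_trichotomy i.1 j.1 with h1 | h1 | h1
  · exact key i j h1
  · rw [Fin.ext h1]
  · rw [CoxeterMatrix.symmetric]
    exact (key j i h1).symm

/-- the Artin group of type `A4` is the braid group on five strands -/
theorem bd : Pool.Agent.Helper29.B5.Bd sg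
    (PresentedGroup.toGroup (lift_aux (relH 4).toRelBr)) where
  rel := sg_rel
  gen := by
    rw [eq_top_iff, ← PresentedGroup.closure_range_of, Subgroup.closure_le]
    rintro _ ⟨i, rfl⟩
    exact Subgroup.subset_closure ⟨i.1, i.2, sg_of i.2⟩
  js i hi := by
    rw [sg_of hi, PresentedGroup.toGroup.of]

theorem k1 : td.chk1 = true := by decide +kernel

/-- An automorphism of the braid group on five strands which fixes `δ` and the exponent sum is the
conjugation by a power of `δ`. -/
theorem fix [Lattice (Artin (CoxeterMatrix.A 4))]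
    (F : Frame (AD.EE ad_ok) (Artin (CoxeterMatrix.A 4)))
    (hg : ∀ (k : Fin 4) (x : AD.SS ad_ok), x.i = ad.gi k → F.g x = PresentedGroup.of k)
    (hl : ∀ k, F.len (PresentedGroup.of k) = 1)
    (ψ : MulAut (Artin (CoxeterMatrix.A 4))) (hψ : ψ F.δ = F.δ)
    (hlen : ∀ w, F.len (ψ w) = F.len w) :
    ∃ i : ℤ, ∀ w, ψ w = F.δ ^ i * w * (F.δ ^ i)⁻¹ := by
  have hL : Pool.Agent.Helper29.B5.Len sg F.len 1 := {
    mul := F.len_mul
    gen := fun i hi => by rw [sg_of hi, hl]
    ne := one_ne_zero }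
  obtain ⟨t, ht⟩ := bd.inner hL hlen
  have hc : t * F.δ = F.δ * t := by
    have h1 := ht F.δ
    rw [hψ] at h1
    rw [eq_mul_inv_iff_mul_eq] at h1
    exact h1.symm
  obtain ⟨i, rfl⟩ := F.cent_one (TD.tau_triv k1) hc
  exact ⟨i, ht⟩

end Pool.Agent.SPH.A4
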