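import Pool.Agent.SPH.A4.Tab
import Pool.Agent.SPH.AdChk

/-!
# Project SPH: the certificate of the rank two relations of type A4
-/

set_option linter.all false

namespace Pool.Agent.SPH.A4

/-- the steps -/
def cl : List CD.Stp := [
  .dr 1 5, .dr 5 8, .dr 8 10, .bs 1 5 3, .bs 1 8 2, .bs 1 10 2, .bs 5 8 3, .bs 5 10 2,
  .bs 8 10 3, .cl 6 5, .cl 9 8, .cj 1 8 10, .cl 2 1, .ce 1 5 10, .cl 8 1, .cl 10 1, .cj 8 1 10,
  .cl 10 5, .ck 10 2 1, .dr 6 10, .cj 5 8 10, .ce 5 9 8, .cj 6 5 10, .cj 8 6 10, .cj 10 5 9,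
  .cj 7 5 8, .cj 9 7 8, .dr 2 9, .cj 1 5 9, .ce 1 7 5, .cj 2 1 9, .cj 2 10 9, .cj 5 2 9,
  .cj 10 2 9, .cj 1 10 7, .cj 9 1 7, .cj 10 1 7, .cj 4 1 5, .cj 7 4 5, .dr 2 8, .cj 1 5 8,
  .ce 1 6 5, .cj 2 1 8, .ce 2 8 10, .cj 4 2 8, .cj 5 2 8, .cj 9 4 8, .cj 8 1 6, .cj 3 1 5,
  .cj 6 3 5]

/-- the labels -/
def cox (i j : ℕ) : ℕ :=
  cond (Nat.beq i 1)
    (cond (Nat.beq j 1) 1 (cond (Nat.beq j 5) 3 (cond (Nat.beq j 8) 2 (cond (Nat.beq j 10) 2 0))))
    (cond (Nat.beq i 5)
    (cond (Nat.beq j 1) 3 (cond (Nat.beq j 5) 1 (cond (Nat.beq j 8) 3 (cond (Nat.beq j 10) 2 0))))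
    (cond (Nat.beq i 8)
    (cond (Nat.beq j 1) 2 (cond (Nat.beq j 5) 3 (cond (Nat.beq j 8) 1 (cond (Nat.beq j 10) 3 0))))
    (cond (Nat.beq i 10)
    (cond (Nat.beq j 1) 2 (cond (Nat.beq j 5) 2 (cond (Nat.beq j 8) 3 (cond (Nat.beq j 10) 1 0))))
    (0))))

/-- the data -/
noncomputable def ad : AD where
  D := td
  n := 4
  M := CoxeterMatrix.A 4
  T := 10
  gi := ![1, 5, 8, 10]
  cox := cox
  l := cl
  A0 := 0x522
  A1 := 0x7fe
  R1 := 0x2b6000000000000000000000000000000000000000000000000000000000000019200000000000000000000000000000000000000000000000000000000000004da00000000000000000000000000000000000000000000000000000000000001700000000000000000000000000000000000000000000000000000000000000438000000000000000000000000000000000000000000000000000000000000071c000000000000000000000000000000000000000000000000000000000000016e0000000000000000000000000000000000000000000000000000000000000426000000000000000000000000000000000000000000000000000000000000070200000000000000000000000000000000000000000000000000000000000007e00000000000000000000000000000000000000000000000000000000000000000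

end Pool.Agent.SPH.A4
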